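import Pool.Agent.Lib.H11I.SendovDefs
import Pool.Agent.Lib.Helper20.Sendov.Final
import Pool.Agent.Lib.Helper30.Sendov.Reduce

set_option autoImplicit false

/-!
Extremal polynomials of the Ilieff-Sendov problem of degree ten for the points `a` with `|a| = 5 / 8`.
-/

open Polynomial

namespace Pool.Agent.H11I

theorem finite_critDistances {n : ℕ} (hn : 2 ≤ n) (a : ℂ) {P : ℂ[X]} (hP : P.natDegree = n) :
    (critDistances a P).Finite := by
  have h0 : P.derivative ≠ 0 := by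
    intro h
    have h1 := Polynomial.derivative_eq_zero.1 h
    omega
  have h1 : {ζ : ℂ | P.derivative.eval ζ = 0}.Finite := by
    refine (P.derivative.roots.toFinset.finite_toSet).subset fun ζ hζ => ?_
    rw [Finset.mem_coe, Multiset.mem_toFinset, mem_roots h0]
    exact hζ
  refine (h1.image fun ζ => ‖ζ - a‖).subset ?_
  rintro r ⟨ζ, hζ, rfl⟩
  exact ⟨ζ, hζ, rfl⟩

theorem nonempty_critDistances {n : ℕ} (hn : 2 ≤ n) (a : ℂ) {P : ℂ[X]} (hP : P.natDegree = n) :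
    (critDistances a P).Nonempty := by
  have h1 : P.derivative.degree ≠ 0 := by
    rw [degree_derivative (p := P) (by omega)]
    have : n - 1 ≠ 0 := by omega
    rw [hP]
    exact_mod_cast this
  obtain ⟨ζ, hζ⟩ := IsAlgClosed.exists_root P.derivative h1
  exact ⟨_, ζ, hζ, rfl⟩

theorem critDist_mem {n : ℕ} (hn : 2 ≤ n) (a : ℂ) {P : ℂ[X]} (hP : P.natDegree = n) :
    critDist a P ∈ critDistances a P :=
  (nonempty_critDistances hn a hP).csInf_mem (finite_critDistances hn a hP)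

theorem critDist_le {n : ℕ} (hn : 2 ≤ n) {a : ℂ} {P : ℂ[X]} (hP : P.natDegree = n) {ζ : ℂ}
    (hζ : P.derivative.eval ζ = 0) : critDist a P ≤ ‖ζ - a‖ :=
  csInf_le (finite_critDistances hn a hP).bddBelow ⟨ζ, hζ, rfl⟩

theorem critDist_eq {n : ℕ} (hn : 2 ≤ n) {a : ℂ} {P : ℂ[X]} (hP : P.natDegree = n) {d : ℝ}
    (h1 : ∃ ζ : ℂ, P.derivative.eval ζ = 0 ∧ ‖ζ - a‖ = d)
    (h2 : ∀ ζ : ℂ, P.derivative.eval ζ = 0 → d ≤ ‖ζ - a‖) : critDist a P = d := by
  apply le_antisymm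
  · obtain ⟨ζ, hζ, rfl⟩ := h1
    exact critDist_le hn hP hζ
  · obtain ⟨ζ, hζ, h3⟩ := critDist_mem hn a hP
    rw [← h3]
    exact h2 ζ hζ

/-- Extremal polynomials exist. -/
theorem exists_extremal' {n : ℕ} (hn : 2 ≤ n) {a : ℂ} (ha : ‖a‖ ≤ 1) : ∃ P, Extremal n a P := by
  obtain ⟨P, d, h1, h2, h3, h4, h5, h6⟩ := Sendov.exists_extremal n hn a ha
  have hd := critDist_eq hn h1 h4 h5
  refine ⟨P, ⟨h1, h3, h2⟩, ?_, fun b hb => hb ⟨P, ⟨h1, h3, h2⟩, rfl⟩⟩
  rintro _ ⟨Q, ⟨q1, q2, q3⟩, rfl⟩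
  obtain ⟨ξ, hξ, hle⟩ := h6 Q q1 q3 q2
  rw [hd]
  exact (critDist_le hn q1 hξ).trans hle

/-- No polynomial of the class with `d(a, P) ≥ 11 / 12` has all its critical points on one circle. -/
theorem exists_outside {P : ℂ[X]} (hP : P ∈ PolyClass 10 (5 / 8)) (hd : 11 / 12 ≤ critDist (5 / 8) P) :
    ∃ ζ : ℂ, P.derivative.eval ζ = 0 ∧ critDist (5 / 8) P < ‖ζ - 5 / 8‖ := by
  by_contra hcon
  push Not at hcon
  obtain ⟨h1, h2, h3⟩ := hP
  obtain ⟨c, hc9, hc, hG, hK⟩ := Sendov.exists_c P h1 h3 h2 _ hd fun ζ hζ =>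
    le_antisymm (hcon ζ hζ) (critDist_le (by norm_num) h1 hζ)
  exact hc9 (Sendov.no_c c hc hG hK 9 (by norm_num))

theorem exists_gt : ∃ Q ∈ PolyClass 10 (5 / 8), 11 / 12 < critDist (5 / 8) Q := by
  obtain ⟨Q, q1, q2, q3, q4⟩ := Sendov.Good.exists_good
  obtain ⟨ξ, hξ, h⟩ := critDist_mem (by norm_num) (5 / 8) q1
  exact ⟨Q, ⟨q1, q3, q2⟩, by rw [← h]; exact q4 ξ hξ⟩

/-- The polynomial `P (u z)`. -/
noncomputable def rot (u : ℂ) (P : ℂ[X]) : ℂ[X] := P.comp (C u * X)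

theorem rot_eval (u z : ℂ) (P : ℂ[X]) : (rot u P).eval z = P.eval (u * z) := by
  unfold rot
  rw [eval_comp, eval_mul, eval_C, eval_X]

theorem rot_derivative_eval (u z : ℂ) (P : ℂ[X]) :
    (rot u P).derivative.eval z = u * P.derivative.eval (u * z) := by
  unfold rot
  rw [derivative_comp, derivative_C_mul, derivative_X, mul_one, eval_mul, eval_C, eval_comp, eval_mul,
    eval_C, eval_X]

theorem rot_mem {u : ℂ} (hu : ‖u‖ = 1) {n : ℕ} {b : ℂ} {P : ℂ[X]} (hP : P ∈ PolyClass n (u * b)) :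
    rot u P ∈ PolyClass n b := by
  have hu0 : u ≠ 0 := by
    intro h
    rw [h, norm_zero] at hu
    exact zero_ne_one hu
  obtain ⟨h1, h2, h3⟩ := hP
  refine ⟨?_, fun z hz => ?_, ?_⟩
  · unfold rot
    rw [natDegree_comp, natDegree_C_mul_X u hu0, mul_one, h1]
  · rw [rot_eval] at hz
    have := h2 _ hz
    rwa [norm_mul, hu, one_mul] at this
  · rw [rot_eval, h3]

theorem rot_critDistances {u : ℂ} (hu : ‖u‖ = 1) (b : ℂ) (P : ℂ[X]) :
    critDistances b (rot u P) = critDistances (u * b) P := by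
  have hu0 : u ≠ 0 := by
    intro h
    rw [h, norm_zero] at hu
    exact zero_ne_one hu
  have hn : ∀ ζ : ℂ, ‖u * ζ - u * b‖ = ‖ζ - b‖ := by
    intro ζ
    rw [← mul_sub, norm_mul, hu, one_mul]
  ext r
  constructor
  · rintro ⟨ζ, hζ, rfl⟩
    rw [rot_derivative_eval, mul_eq_zero] at hζ
    exact ⟨u * ζ, hζ.resolve_left hu0, hn ζ⟩
  · rintro ⟨ζ, hζ, rfl⟩
    have h1 : u * (u⁻¹ * ζ) = ζ := by rw [← mul_assoc, mul_inv_cancel₀ hu0, one_mul]
    refine ⟨u⁻¹ * ζ, ?_, ?_⟩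
    · rw [rot_derivative_eval, h1, hζ, mul_zero]
    · rw [← hn, h1]

theorem rot_critDist {u : ℂ} (hu : ‖u‖ = 1) (b : ℂ) (P : ℂ[X]) :
    critDist b (rot u P) = critDist (u * b) P := by
  unfold critDist
  rw [rot_critDistances hu]

/-- For every `a` with `|a| = 5 / 8` there is an extremal polynomial of degree ten, and every one of
them has a critical point strictly outside its extremal circle; more generally this holds for all
polynomials of the class with `d(a, P) ≥ 11 / 12`, and the extremal ones satisfy `d(a, P) > 11 / 12`. -/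
theorem main {a : ℂ} (ha : ‖a‖ = 5 / 8) :
    (∃ P, Extremal 10 a P) ∧ (∀ P, Extremal 10 a P → 11 / 12 < critDist a P) ∧
      ∀ P ∈ PolyClass 10 a, 11 / 12 ≤ critDist a P →
        ∃ ζ : ℂ, P.derivative.eval ζ = 0 ∧ critDist a P < ‖ζ - a‖ := by
  obtain ⟨u, hu, hua⟩ : ∃ u : ℂ, ‖u‖ = 1 ∧ u * (5 / 8) = a := by
    refine ⟨a / (5 / 8), ?_, by field_simp⟩
    rw [norm_div, ha]
    have : (5 / 8 : ℂ) = ((5 / 8 : ℝ) : ℂ) := by push_cast; ring
    rw [this, Complex.norm_real]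
    norm_num
  have hu0 : u ≠ 0 := by
    intro h
    rw [h, norm_zero] at hu
    exact zero_ne_one hu
  have hui : ‖u⁻¹‖ = 1 := by rw [norm_inv, hu, inv_one]
  have hua' : u⁻¹ * a = 5 / 8 := by
    rw [← hua, ← mul_assoc, inv_mul_cancel₀ hu0, one_mul]
  refine ⟨exists_extremal' (by norm_num) (by rw [ha]; norm_num), ?_, ?_⟩
  · rintro P ⟨-, hP⟩
    obtain ⟨Q, hQ, hQ'⟩ := exists_gt
    rw [← hua'] at hQ hQ'
    rw [← rot_critDist hui] at hQ'
    exact hQ'.trans_le (hP.1 ⟨_, rot_mem hui hQ, rfl⟩)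
  · intro P hP hd
    rw [← hua] at hP hd
    rw [← rot_critDist hu] at hd
    obtain ⟨ζ, hζ, h⟩ := exists_outside (rot_mem hu hP) hd
    rw [rot_derivative_eval, mul_eq_zero] at hζ
    refine ⟨u * ζ, hζ.resolve_left hu0, ?_⟩
    rw [rot_critDist hu, hua] at h
    rw [← hua, ← mul_sub, norm_mul, hu, one_mul, hua]
    exact h

end Pool.Agent.H11I
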