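import Mathlib

set_option autoImplicit false

/-!
The definitions of MP_951270 (extremal polynomials of the Ilieff-Sendov problem).
-/

open Polynomial

namespace Pool.Agent.H11I

/-- The class `P_n(a)`: the complex polynomials of degree `n` all of whose zeros lie in the closed unit
disc and which vanish at `a`. -/
def PolyClass (n : ℕ) (a : ℂ) : Set ℂ[X] :=
  {P | P.natDegree = n ∧ (∀ z : ℂ, P.eval z = 0 → ‖z‖ ≤ 1) ∧ P.eval a = 0}

/-- The set of the distances from `a` to the critical points of `P`. -/
def critDistances (a : ℂ) (P : ℂ[X]) : Set ℝ := {r | ∃ ζ : ℂ, P.derivative.eval ζ = 0 ∧ ‖ζ - a‖ = r}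

/-- `d(a, P)`: the distance from `a` to the nearest critical point of `P`. -/
noncomputable def critDist (a : ℂ) (P : ℂ[X]) : ℝ := sInf (critDistances a P)

/-- `P` is extremal for `n` and `a`: it lies in `P_n(a)`, and `d(a, P)` is the supremum of the numbers
`d(a, Q)`, `Q` in `P_n(a)`. -/
def Extremal (n : ℕ) (a : ℂ) (P : ℂ[X]) : Prop :=
  P ∈ PolyClass n a ∧ IsLUB (critDist a '' PolyClass n a) (critDist a P)

end Pool.Agent.H11I
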